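import Mathlib

/-!
# Sequences with distinct block sums: local periods of the gaps (MP_7feddf_nt), core

`S a n` is the sum of the first `n` terms, the sum over the block `u ≤ i < v` is `S a v - S a u`.
-/

set_option autoImplicit false

namespace Pool.Agent.CG

open Finset

/-- the sum of the first `n` terms -/
def S (a : ℕ → ℕ) (n : ℕ) : ℤ := ∑ i ∈ range n, (a i : ℤ)

theorem S_succ (a : ℕ → ℕ) (n : ℕ) : S a (n + 1) = S a n + a n := sum_range_succ _ _

/-- the sum of the `n` terms starting with `a v` -/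
def T (a : ℕ → ℕ) (v n : ℕ) : ℤ := S a (v + n) - S a v

theorem T_succ (a : ℕ → ℕ) (v n : ℕ) : T a (v + 1) n = T a v n + a (v + n) - a v := by
  unfold T
  have e : v + 1 + n = v + n + 1 := by omega
  rw [e, S_succ, S_succ]
  ring

theorem T_sum (a : ℕ → ℕ) (v n : ℕ) : T a v n = ∑ j ∈ range n, (a (v + j) : ℤ) := by
  induction n with
  | zero => unfold T; simp
  | succ n ih =>
    rw [sum_range_succ, ← ih]
    unfold T
    rw [← add_assoc, S_succ]
    ring

/-- `a 0 < a 1 < … < a (k - 1)` is a sequence of positive integers with distinct block sums -/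
structure Ad (k : ℕ) (a : ℕ → ℕ) : Prop where
  inc : ∀ i j, i < j → j < k → a i < a j
  pos : ∀ i, i < k → 1 ≤ a i
  inj : ∀ u v u' v', u < v → v ≤ k → u' < v' → v' ≤ k → S a v - S a u = S a v' - S a u' →
    u = u' ∧ v = v'

/-- the gaps after `v` have the period `q` with sum `Q`, `L` steps -/
def Per (k : ℕ) (a : ℕ → ℕ) (q Q L v : ℕ) : Prop :=
  v + L + q ≤ k ∧ ∀ i, v ≤ i → i < v + L → a (i + q) = a i + Q

section

variable {k : ℕ} {a : ℕ → ℕ} {q Q L v : ℕ}

theorem Per.mul (h : Per k a q Q L v) {i m : ℕ} (hi : v ≤ i) (hm : i + q * m < v + L + q)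
    (hq : 1 ≤ q) : a (i + q * m) = a i + m * Q := by
  induction m with
  | zero => simp
  | succ m ih =>
    have e : i + q * (m + 1) = i + q * m + q := by ring
    rw [e] at hm ⊢
    rw [h.2 (i + q * m) (by omega) (by omega), ih (by omega)]
    ring

theorem Per.T_step (h : Per k a q Q L v) {i m : ℕ} (hi : v ≤ i) (hm : i + q * m < v + L + q)
    (hq : 1 ≤ q) : T a (i + 1) (q * m) = T a i (q * m) + m * Q := by
  rw [T_succ, h.mul hi hm hq]
  push_cast
  ring

theorem Per.T_steps (h : Per k a q Q L v) {s m : ℕ} (hm : v + s + q * m ≤ v + L + q)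
    (hq : 1 ≤ q) : T a (v + s) (q * m) = T a v (q * m) + s * m * Q := by
  induction s with
  | zero => simp
  | succ s ih =>
    rw [← add_assoc, h.T_step (by omega) (by omega) hq, ih (by omega)]
    push_cast
    ring

end

/-- solutions of `m s - m' s' = D` in a box -/
theorem box {m m' : ℕ} (hc : Nat.Coprime m m') (hm : m < m') {D : ℤ} (h1 : -(m' : ℤ) < D)
    (h2 : D < m) : ∃ s s' : ℕ, s < m' ∧ s' ≤ m ∧ (m : ℤ) * s - m' * s' = D := by
  have hg : (Int.gcd (m : ℤ) (m' : ℤ) : ℤ) = 1 := by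
    rw [Int.gcd_natCast_natCast]
    exact_mod_cast hc
  obtain ⟨x, y, hxy⟩ : ∃ x y : ℤ, (m : ℤ) * x - m' * y = D := by
    refine ⟨Int.gcdA m m' * D, -(Int.gcdB m m' * D), ?_⟩
    have h := Int.gcd_eq_gcd_ab (m : ℤ) (m' : ℤ)
    rw [hg] at h
    linear_combination (-D) * h
  have hm'0 : (0 : ℤ) < m' := by
    have : 0 < m' := by omega
    exact_mod_cast this
  have hm0 : (m : ℤ) < m' := by exact_mod_cast hm
  set s : ℤ := x % m' with hs
  set s' : ℤ := y - m * (x / m') with hs'
  have e : (m : ℤ) * s - m' * s' = D := by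
    have h3 := Int.emod_add_mul_ediv x m'
    rw [hs, hs', ← hxy]
    linear_combination (m : ℤ) * h3
  have hs0 : 0 ≤ s := Int.emod_nonneg x hm'0.ne'
  have hs1 : s < m' := Int.emod_lt_of_pos x hm'0
  have hmn : (0 : ℤ) ≤ m := Int.natCast_nonneg m
  have hs'0 : 0 ≤ s' := by
    by_contra hneg
    have h4 : s' ≤ -1 := by omega
    have h5 : (m' : ℤ) * s' ≤ m' * (-1) := mul_le_mul_of_nonneg_left h4 hm'0.le
    have h6 : 0 ≤ (m : ℤ) * s := mul_nonneg hmn hs0
    linarith
  have hs'1 : s' ≤ m := by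
    by_contra hneg
    have h4 : (m : ℤ) + 1 ≤ s' := by omega
    have h5 : (m' : ℤ) * (m + 1) ≤ m' * s' := mul_le_mul_of_nonneg_left h4 hm'0.le
    have h6 : (m : ℤ) * s ≤ m * (m' - 1) := mul_le_mul_of_nonneg_left (by omega) hmn
    nlinarith
  refine ⟨s.toNat, s'.toNat, ?_, ?_, ?_⟩
  · have : ((s.toNat : ℕ) : ℤ) < m' := by rw [Int.toNat_of_nonneg hs0]; exact hs1
    exact_mod_cast this
  · have : ((s'.toNat : ℕ) : ℤ) ≤ m := by rw [Int.toNat_of_nonneg hs'0]; exact hs'1
    exact_mod_cast this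
  · rw [Int.toNat_of_nonneg hs0, Int.toNat_of_nonneg hs'0]
    exact e

section

variable {k : ℕ} {a : ℕ → ℕ}

/-- the main lemma: two periodic places with the same period and different coprime lengths -/
theorem clash (ha : Ad k a) {q Q P m m' v v' : ℕ} (hq : 1 ≤ q) (hQ : 1 ≤ Q)
    (hc : Nat.Coprime m m') (hmm : m < m') (hm1 : 1 ≤ m) (hP : m' ≤ P)
    (h : Per k a q Q ((q + 1) * P) v) (h' : Per k a q Q ((q + 1) * P) v') {x : ℤ}
    (h1 : T a v (q * m) ≤ x) (h2 : x < T a v (q * m) + m * Q)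
    (h1' : T a v' (q * m') ≤ x) (h2' : x < T a v' (q * m') + m' * Q)
    (hr : T a v (q * m) % Q = T a v' (q * m') % Q) : False := by
  have hQ0 : (0 : ℤ) < Q := by exact_mod_cast hQ
  obtain ⟨D, hD⟩ : ∃ D : ℤ, T a v' (q * m') - T a v (q * m) = Q * D := by
    have h3 : (Q : ℤ) ∣ T a v' (q * m') - T a v (q * m) :=
      Int.dvd_iff_emod_eq_zero.2 (by rw [Int.sub_emod, hr, sub_self, Int.zero_emod])
    exact h3
  have hD1 : -(m' : ℤ) < D := by
    have : (Q : ℤ) * (-(m' : ℤ)) < Q * D := by rw [← hD]; linarith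
    exact lt_of_mul_lt_mul_left this hQ0.le
  have hD2 : D < m := by
    have : (Q : ℤ) * D < Q * m := by rw [← hD]; linarith
    exact lt_of_mul_lt_mul_left this hQ0.le
  obtain ⟨s, s', hs, hs', e⟩ := box hc hmm hD1 hD2
  have hqm : q * m ≤ q * P := Nat.mul_le_mul_left q (by omega)
  have hqm' : q * m' ≤ q * P := Nat.mul_le_mul_left q hP
  have eP : (q + 1) * P = q * P + P := by ring
  have hk := h.1
  have hk' := h'.1
  have e1 := h.T_steps (s := s) (m := m) (by omega) hq
  have e2 := h'.T_steps (s := s') (m := m') (by omega) hq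
  have e3 : T a (v + s) (q * m) = T a (v' + s') (q * m') := by
    rw [e1, e2]
    linear_combination (Q : ℤ) * e - hD
  have hqm0 : 1 ≤ q * m := Nat.mul_pos hq hm1
  have hqm0' : 1 ≤ q * m' := Nat.mul_pos hq (by omega)
  have h5 := ha.inj (v + s) (v + s + q * m) (v' + s') (v' + s' + q * m') (by omega) (by omega)
    (by omega) (by omega) e3
  have h6 : q * m = q * m' := by omega
  have h7 := Nat.eq_of_mul_eq_mul_left hq h6
  omega

theorem T_mono (ha : Ad k a) {u v n : ℕ} (huv : u ≤ v) (hv : v + n ≤ k) : T a u n ≤ T a v n := by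
  rw [T_sum, T_sum]
  refine sum_le_sum fun j hj => ?_
  rw [mem_range] at hj
  have h : a (u + j) ≤ a (v + j) := by
    rcases eq_or_lt_of_le huv with e | hlt
    · rw [e]
    · exact (ha.inc _ _ (by omega) (by omega)).le
  exact_mod_cast h

/-- an upper bound for block sums -/
theorem T_le (ha : Ad k a) {v n Y : ℕ} (hv : v + n < k) (hY : a (v + n) ≤ Y) :
    T a v n ≤ n * Y := by
  rw [T_sum]
  refine (sum_le_card_nsmul (range n) _ (Y : ℤ) fun j hj => ?_).trans ?_
  · rw [mem_range] at hj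
    have h : a (v + j) ≤ Y := (ha.inc _ _ (by omega) hv).le.trans hY
    exact_mod_cast h
  · rw [card_range, nsmul_eq_mul]

end

end Pool.Agent.CG
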