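import Pool.Agent.Lib_helper49.CG.Core

/-!
# Sequences with distinct block sums: local periods of the gaps (MP_7feddf_nt), counting
-/

set_option autoImplicit false

namespace Pool.Agent.CG

open Finset

/-- block sums as natural numbers -/
def t (a : ℕ → ℕ) (v n : ℕ) : ℕ := ∑ j ∈ range n, a (v + j)

theorem t_T (a : ℕ → ℕ) (v n : ℕ) : (t a v n : ℤ) = T a v n := by
  rw [T_sum]
  unfold t
  push_cast
  rfl

section

variable {k : ℕ} {a : ℕ → ℕ}

/-- the number of periodic places with given period `q` and sum `Q` -/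
theorem count_qQ (ha : Ad k a) {q Q P Y : ℕ} (hq : 1 ≤ q) (hQ : 1 ≤ Q) (V : Finset ℕ)
    (hV : ∀ v ∈ V, Per k a q Q ((q + 1) * P) v)
    (hY : ∀ v ∈ V, a (v + (q + 1) * P + q - 1) ≤ Y) :
    V.card * ∑ p ∈ Nat.primesLE P, p ≤ q * P * Y := by
  classical
  have eP : (q + 1) * P = q * P + P := by ring
  set dom : Finset (Σ _ : ℕ × ℕ, ℕ) := (Nat.primesLE P ×ˢ V).sigma fun z =>
    Ico (t a z.2 (q * z.1)) (t a z.2 (q * z.1) + z.1 * Q) with hdom
  have hc1 : dom.card = V.card * (∑ p ∈ Nat.primesLE P, p) * Q := by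
    rw [hdom, card_sigma]
    have h : ∀ z ∈ Nat.primesLE P ×ˢ V,
        (Ico (t a z.2 (q * z.1)) (t a z.2 (q * z.1) + z.1 * Q)).card = z.1 * Q := by
      intro z _
      rw [Nat.card_Ico]
      omega
    rw [sum_congr rfl h, sum_product]
    simp only [sum_const, smul_eq_mul]
    rw [← mul_sum, ← sum_mul]
    ring
  have hinj : dom.card ≤ (range (q * P * Y) ×ˢ range Q).card := by
    refine card_le_card_of_injOn (fun z => (z.2, t a z.1.2 (q * z.1.1) % Q)) ?_ ?_
    · rintro ⟨⟨p, v⟩, x⟩ hz
      rw [mem_coe, hdom, mem_sigma, mem_product, mem_Ico] at hz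
      obtain ⟨⟨hp, hv⟩, -, hx⟩ := hz
      rw [Nat.mem_primesLE] at hp
      dsimp only at hp hv hx
      have h1 := hV v hv
      have hp1 : 1 ≤ p := hp.2.one_lt.le
      have hqp : q * p ≤ q * P := Nat.mul_le_mul_left q hp.1
      have hk := h1.1
      have h2 := h1.T_step (i := v) (m := p) le_rfl (by omega) hq
      have h3 : a (v + 1 + q * p) ≤ Y := by
        refine le_trans ?_ (hY v hv)
        rcases Nat.lt_or_ge (v + 1 + q * p) (v + (q + 1) * P + q - 1) with hlt | hge
        · exact (ha.inc _ _ hlt (by omega)).le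
        · rw [show v + 1 + q * p = v + (q + 1) * P + q - 1 by omega]
      have h4 := T_le ha (v := v + 1) (n := q * p) (by omega) h3
      rw [mem_coe, mem_product, mem_range, mem_range]
      refine ⟨?_, Nat.mod_lt _ hQ⟩
      show x < q * P * Y
      have h5 : (t a v (q * p) + p * Q : ℕ) ≤ q * p * Y := by
        have h6 : ((t a v (q * p) + p * Q : ℕ) : ℤ) ≤ ((q * p * Y : ℕ) : ℤ) := by
          push_cast
          rw [t_T]
          rw [h2] at h4
          push_cast at h4
          exact h4
        exact_mod_cast h6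
      exact lt_of_lt_of_le hx (h5.trans (Nat.mul_le_mul_right Y hqp))
    · rintro ⟨⟨p, v⟩, x⟩ hz ⟨⟨p', v'⟩, x'⟩ hz' he
      rw [mem_coe, hdom, mem_sigma, mem_product, mem_Ico] at hz hz'
      obtain ⟨⟨hp, hv⟩, hx1, hx2⟩ := hz
      obtain ⟨⟨hp', hv'⟩, hx1', hx2'⟩ := hz'
      rw [Nat.mem_primesLE] at hp hp'
      dsimp only at hp hv hx1 hx2 hp' hv' hx1' hx2' he
      rw [Prod.mk.injEq] at he
      obtain ⟨rfl, hr⟩ := he
      have h1 := hV v hv
      have h1' := hV v' hv'
      have hk := h1.1
      have hk' := h1'.1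
      have hqp : q * p ≤ q * P := Nat.mul_le_mul_left q hp.1
      have hqp' : q * p' ≤ q * P := Nat.mul_le_mul_left q hp'.1
      have z1 : T a v (q * p) ≤ (x : ℤ) := by rw [← t_T]; exact_mod_cast hx1
      have z2 : (x : ℤ) < T a v (q * p) + p * Q := by rw [← t_T]; exact_mod_cast hx2
      have z1' : T a v' (q * p') ≤ (x : ℤ) := by rw [← t_T]; exact_mod_cast hx1'
      have z2' : (x : ℤ) < T a v' (q * p') + p' * Q := by rw [← t_T]; exact_mod_cast hx2'
      have zr : T a v (q * p) % Q = T a v' (q * p') % Q := by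
        rw [← t_T, ← t_T]
        exact_mod_cast hr
      have hpp : p = p' := by
        by_contra hne
        rcases Nat.lt_or_gt_of_ne hne with hlt | hgt
        · exact clash ha hq hQ ((Nat.coprime_primes hp.2 hp'.2).2 hne) hlt hp.2.one_lt.le hp'.1
            h1 h1' z1 z2 z1' z2' zr
        · exact clash ha hq hQ ((Nat.coprime_primes hp'.2 hp.2).2 (Ne.symm hne)) hgt
            hp'.2.one_lt.le hp.1 h1' h1 z1' z2' z1 z2 zr.symm
      subst hpp
      have hvv : v = v' := by
        by_contra hne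
        rcases Nat.lt_or_gt_of_ne hne with hlt | hgt
        · have h2 := h1.T_step (i := v) (m := p) le_rfl (by omega) hq
          have h3 := T_mono ha (u := v + 1) (v := v') (n := q * p) hlt (by omega)
          rw [h2] at h3
          linarith
        · have h2 := h1'.T_step (i := v') (m := p) le_rfl (by omega) hq
          have h3 := T_mono ha (u := v' + 1) (v := v) (n := q * p) hgt (by omega)
          rw [h2] at h3
          linarith
      subst hvv
      rfl
  rw [hc1, card_product, card_range, card_range] at hinj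
  exact Nat.le_of_mul_le_mul_right hinj hQ

/-- the sum of the differences `a (v + q) - a v` -/
theorem sum_diff (ha : Ad k a) {q Y : ℕ} (hq : 1 ≤ q) (W : Finset ℕ)
    (hW : ∀ v ∈ W, v + q < k ∧ a (v + q) ≤ Y) : ∑ v ∈ W, (a (v + q) - a v) ≤ q * Y := by
  rcases W.eq_empty_or_nonempty with rfl | hne
  · simp
  set n := W.max' hne with hn
  obtain ⟨hn1, hn2⟩ := hW n (W.max'_mem hne)
  have hsub : W ⊆ range (n + 1) := fun v hv => by
    rw [mem_range]
    exact Nat.lt_succ_of_le (W.le_max' v hv)
  have key : ∀ N, N + q ≤ n + 1 + q →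
      ∑ v ∈ range N, (a (v + q) - a v) + ∑ j ∈ range q, a j = ∑ j ∈ range q, a (N + j) := by
    intro N
    induction N with
    | zero => intro _; simp
    | succ N ih =>
      intro hN
      have h1 : a N ≤ a (N + q) := (ha.inc _ _ (by omega) (by omega)).le
      have h2 := ih (by omega)
      have h3 : ∑ j ∈ range q, a (N + 1 + j) + a N = ∑ j ∈ range q, a (N + j) + a (N + q) := by
        rw [← sum_range_succ (fun j => a (N + j)) q, sum_range_succ' (fun j => a (N + j)) q]
        simp only [add_zero]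
        congr 1
        refine sum_congr rfl fun j _ => ?_
        rw [show N + 1 + j = N + (j + 1) by omega]
      rw [sum_range_succ]
      omega
  have h1 := key (n + 1) le_rfl
  have h2 : ∑ j ∈ range q, a (n + 1 + j) ≤ q * Y := by
    refine (sum_le_card_nsmul (range q) _ Y fun j hj => ?_).trans ?_
    · rw [mem_range] at hj
      refine le_trans ?_ hn2
      rcases Nat.lt_or_ge (n + 1 + j) (n + q) with hlt | hge
      · exact (ha.inc _ _ hlt hn1).le
      · rw [show n + 1 + j = n + q by omega]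
    · rw [card_range, smul_eq_mul]
  calc ∑ v ∈ W, (a (v + q) - a v) ≤ ∑ v ∈ range (n + 1), (a (v + q) - a v) :=
        sum_le_sum_of_subset hsub
    _ ≤ q * Y := by omega

/-- the number of periodic places with given period `q` -/
theorem count_q (ha : Ad k a) {q P Y Z : ℕ} (hq : 1 ≤ q) (W : Finset ℕ)
    (hW : ∀ v ∈ W, ∃ Q, Per k a q Q ((q + 1) * P) v)
    (hY : ∀ v ∈ W, a (v + (q + 1) * P + q - 1) ≤ Y) (hP : 1 ≤ P) :
    ∃ u w : ℕ, W.card ≤ u + w ∧ u * ∑ p ∈ Nat.primesLE P, p ≤ Z * (q * P * Y) ∧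
      w * (Z + 1) ≤ q * Y := by
  classical
  have eP : (q + 1) * P = q * P + P := by ring
  have hqP : 1 ≤ q * P := Nat.mul_pos hq hP
  set W1 := W.filter fun v => a (v + q) - a v ≤ Z with hW1
  set W2 := W.filter fun v => ¬ a (v + q) - a v ≤ Z with hW2
  refine ⟨W1.card, W2.card, ?_, ?_, ?_⟩
  · rw [hW1, hW2, card_filter_add_card_filter_not]
  · have h1 : W1.card = ∑ Q ∈ Icc 1 Z, (W1.filter fun v => a (v + q) - a v = Q).card := by
      refine card_eq_sum_card_fiberwise fun v hv => ?_
      rw [mem_coe, hW1, mem_filter] at hv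
      obtain ⟨Q, hQ⟩ := hW v hv.1
      have h2 := ha.inc v (v + q) (by omega) (by have := hQ.1; omega)
      rw [mem_coe, mem_Icc]
      exact ⟨by omega, hv.2⟩
    rw [h1, sum_mul]
    have h3 : ∀ Q ∈ Icc 1 Z, (W1.filter fun v => a (v + q) - a v = Q).card *
        ∑ p ∈ Nat.primesLE P, p ≤ q * P * Y := by
      intro Q hQ
      rw [mem_Icc] at hQ
      refine count_qQ ha hq hQ.1 _ (fun v hv => ?_) (fun v hv => ?_)
      · rw [mem_filter, hW1, mem_filter] at hv
        obtain ⟨Q', hQ'⟩ := hW v hv.1.1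
        have h4 := hQ'.2 v le_rfl (by omega)
        have h5 : Q' = Q := by
          have := hv.2
          omega
        rw [← h5]
        exact hQ'
      · rw [mem_filter, hW1, mem_filter] at hv
        exact hY v hv.1.1
    refine (sum_le_card_nsmul _ _ _ h3).trans ?_
    rw [Nat.card_Icc, smul_eq_mul]
    simp
  · have h1 : W2.card * (Z + 1) ≤ ∑ v ∈ W2, (a (v + q) - a v) := by
      rw [← smul_eq_mul]
      refine card_nsmul_le_sum _ _ _ fun v hv => ?_
      rw [hW2, mem_filter] at hv
      omega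
    refine h1.trans (sum_diff ha hq W2 fun v hv => ?_)
    rw [hW2, mem_filter] at hv
    obtain ⟨Q, hQ⟩ := hW v hv.1
    have hk := hQ.1
    refine ⟨by omega, le_trans ?_ (hY v hv.1)⟩
    rcases Nat.lt_or_ge (v + q) (v + (q + 1) * P + q - 1) with hlt | hge
    · exact (ha.inc _ _ hlt (by omega)).le
    · rw [show v + (q + 1) * P + q - 1 = v + q by omega]

end

end Pool.Agent.CG
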