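import Pool.Agent.Lib_helper49.CG.Sum

/-!
# Sequences with distinct block sums: local periods of the gaps (MP_7feddf_nt), the three theorems
-/

set_option autoImplicit false

namespace Pool.Agent.CG

open Finset

variable {k : ℕ} {a : ℕ → ℕ}

theorem log_le_rp {x : ℝ} (hx : 1 ≤ x) : Real.log x ≤ 8 * x ^ (1 / 8 : ℝ) := by
  have h := Real.log_le_rpow_div (x := x) (by linarith) (ε := 1 / 8) (by norm_num)
  linarith

/-- the logarithm of `2 ^ (L + 1)` -/
theorem logY {L : ℕ} : (L : ℝ) / 2 ≤ Real.log ((2 ^ (L + 1) : ℕ) : ℝ) := by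
  push_cast
  rw [Real.log_pow]
  have h := Real.log_two_gt_d9
  push_cast
  nlinarith [Nat.cast_nonneg (α := ℝ) L]

open scoped Classical in
/-- The cuts between the gaps of the terms `≤ x`. -/
noncomputable def cuts (k : ℕ) (a : ℕ → ℕ) (D : Finset ℕ) (x : ℝ) : Finset ℕ :=
  D.filter fun i => i < k ∧ (a i : ℝ) ≤ x

theorem cuts_card {D : Finset ℕ} {n Y : ℕ} (hn : n ≤ k) (hY : ∀ i, i < k → (i < n ↔ a i ≤ Y)) :
    (D.filter (· < n)).card ≤ (cuts k a D Y).card := by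
  refine card_le_card fun i hi => ?_
  rw [mem_filter] at hi
  unfold cuts
  rw [mem_filter]
  exact ⟨hi.1, by omega, by exact_mod_cast (hY i (by omega)).1 hi.2⟩

/-- the number of terms `≤ Y` of a sequence whose gaps form few monotone pieces -/
theorem card_pieces (ha : Ad k a) (D : Finset ℕ) (hD : Cut k a D) {n Y : ℕ} (hn : n ≤ k)
    (hY : ∀ i, i < k → (i < n ↔ a i ≤ Y)) {T : ℕ} (hT1 : (cuts k a D Y).card + 1 ≤ T)
    (hT : T ≤ Y) : (n : ℝ) ≤ 100 * (Y : ℝ) ^ (3 / 4 : ℝ) * (T : ℝ) ^ (1 / 4 : ℝ) *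
      (1 + Real.log (Y / T)) := by
  have hT0 : (1 : ℝ) ≤ T := by
    have : 1 ≤ T := by omega
    exact_mod_cast this
  have hTY : (T : ℝ) ≤ Y := by exact_mod_cast hT
  set t : ℝ := (Y : ℝ) / T with ht
  have ht1 : 1 ≤ t := by rw [ht, one_le_div (by linarith)]; exact hTY
  have hYt : (Y : ℝ) = t * T := by rw [ht]; field_simp
  set r : ℝ := t ^ (1 / 4 : ℝ) with hr
  have hr1 : 1 ≤ r := Real.one_le_rpow ht1 (by norm_num)
  have hr4 : r ^ 4 = t := by
    rw [hr, ← Real.rpow_natCast, ← Real.rpow_mul (by linarith)]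
    norm_num
  have hsq : Real.sqrt t = r ^ 2 := by
    rw [← hr4, show r ^ 4 = (r ^ 2) ^ 2 by ring, Real.sqrt_sq (by positivity)]
  have hlt : 0 ≤ Real.log t := Real.log_nonneg ht1
  set P : ℕ := ⌈r ^ 2⌉₊ + 1 with hP
  have hr2 : 1 ≤ r ^ 2 := one_le_pow₀ hr1
  have hP2 : 2 ≤ P := by
    have : 1 ≤ ⌈r ^ 2⌉₊ := Nat.one_le_ceil_iff.2 (by linarith)
    omega
  have hPl : r ^ 2 ≤ P := by
    rw [hP]
    push_cast
    linarith [Nat.le_ceil (r ^ 2)]
  have hPu : (P : ℝ) ≤ 3 * r ^ 2 := by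
    rw [hP]
    push_cast
    linarith [Nat.ceil_lt_add_one (show 0 ≤ r ^ 2 by positivity)]
  have hsP : r ≤ Real.sqrt P := by
    rw [← Real.sqrt_sq (show 0 ≤ r by linarith)]
    exact Real.sqrt_le_sqrt hPl
  have hsPu : Real.sqrt P ≤ 2 * r := by
    rw [show 2 * r = Real.sqrt ((2 * r) ^ 2) by rw [Real.sqrt_sq (by linarith)]]
    exact Real.sqrt_le_sqrt (by nlinarith)
  have hlogP : Real.log P ≤ 2 * (1 + Real.log t) := by
    have h1 : Real.log P ≤ Real.log (3 * r ^ 2) := Real.log_le_log (by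
      have : (2 : ℝ) ≤ P := by exact_mod_cast hP2
      linarith) hPu
    have h2 : Real.log (3 * r ^ 2) = Real.log 3 + Real.log t / 2 := by
      rw [Real.log_mul (by norm_num) (by positivity), ← hsq, Real.log_sqrt (by linarith)]
    have h3 : Real.log 3 ≤ 2 := by
      have := Real.log_le_sub_one_of_pos (show (0 : ℝ) < 3 by norm_num)
      linarith
    linarith
  obtain ⟨x, hx, hn'⟩ := card_mono ha (n := n) (Y := Y) (P := P) (G := Nat.sqrt P) D hD hn
    (fun i hi => (hY i (by omega)).1 hi) hP2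
  have hG1 : Real.sqrt P ≤ (Nat.sqrt P : ℝ) + 1 := by
    rw [Real.sqrt_le_left (by positivity)]
    have := Nat.lt_succ_sqrt' P
    have h4 : P ≤ (Nat.sqrt P + 1) ^ 2 := by
      rw [Nat.succ_eq_add_one] at this
      exact this.le
    exact_mod_cast h4
  have hG2 : (Nat.sqrt P : ℝ) ≤ Real.sqrt P := Real.nat_sqrt_le_real_sqrt
  have hDT : ((D.filter (· < n)).card : ℝ) + 1 ≤ T := by
    have h1 := cuts_card (D := D) hn hY
    have h2 : (D.filter (· < n)).card + 1 ≤ T := by omega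
    exact_mod_cast h2
  -- the four terms
  have hYn : (0 : ℝ) ≤ Y := Nat.cast_nonneg Y
  have hr0 : r ≠ 0 := by
    have : 0 < r := by linarith
    exact this.ne'
  have hq : (Y : ℝ) / r = r ^ 3 * T := by
    rw [div_eq_iff hr0]
    linear_combination hYt - (T : ℝ) * hr4
  have e1 : 2 * (P : ℝ) ≤ 6 * (Y / r) := by
    rw [hq]
    have : r ^ 2 * 1 ≤ r ^ 3 * T := mul_le_mul (by nlinarith) hT0 (by norm_num) (by positivity)
    nlinarith
  have e2 : 30 * (Y : ℝ) * (Real.log P / Real.sqrt P) ≤ 60 * (Y / r) * (1 + Real.log t) := by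
    have h1 : Real.log P / Real.sqrt P ≤ 2 * (1 + Real.log t) / r :=
      div_le_div₀ (by positivity) hlogP (by linarith) hsP
    calc 30 * (Y : ℝ) * (Real.log P / Real.sqrt P) ≤ 30 * Y * (2 * (1 + Real.log t) / r) :=
          mul_le_mul_of_nonneg_left h1 (by positivity)
      _ = _ := by ring
  have e3 : (x : ℝ) ≤ Y / r := by
    rw [le_div_iff₀ (by linarith)]
    have h1 : (x : ℝ) * ((Nat.sqrt P : ℝ) + 1) ≤ Y := by exact_mod_cast hx
    have h2 : (x : ℝ) * r ≤ x * ((Nat.sqrt P : ℝ) + 1) :=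
      mul_le_mul_of_nonneg_left (hsP.trans hG1) (Nat.cast_nonneg x)
    linarith
  have e4 : 2 * (P : ℝ) * ((((D.filter (· < n)).card : ℝ) + 1) * ((Nat.sqrt P : ℝ) + 1)) ≤
      18 * (Y / r) := by
    rw [hq]
    have h1 : (Nat.sqrt P : ℝ) + 1 ≤ 3 * r := by linarith
    have h2 : (((D.filter (· < n)).card : ℝ) + 1) * ((Nat.sqrt P : ℝ) + 1) ≤ T * (3 * r) :=
      mul_le_mul hDT h1 (add_nonneg (Nat.cast_nonneg _) zero_le_one) (by linarith)
    have h3 : 2 * (P : ℝ) ≤ 6 * r ^ 2 := by linarith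
    calc 2 * (P : ℝ) * ((((D.filter (· < n)).card : ℝ) + 1) * ((Nat.sqrt P : ℝ) + 1)) ≤
          6 * r ^ 2 * (T * (3 * r)) := mul_le_mul h3 h2
            (mul_nonneg (add_nonneg (Nat.cast_nonneg _) zero_le_one)
              (add_nonneg (Nat.cast_nonneg _) zero_le_one)) (by nlinarith)
      _ = _ := by ring
  have hYr : 0 ≤ (Y : ℝ) / r := by positivity
  have hfin : (n : ℝ) ≤ 85 * (Y / r) * (1 + Real.log t) := by nlinarith
  have hpow : (Y : ℝ) / r = (Y : ℝ) ^ (3 / 4 : ℝ) * (T : ℝ) ^ (1 / 4 : ℝ) := by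
    have hY0 : (0 : ℝ) < Y := by linarith
    rw [hr, ht, Real.div_rpow hY0.le (by linarith), div_div_eq_mul_div, div_eq_iff
      (by positivity), mul_comm ((Y : ℝ) ^ (3 / 4 : ℝ)) _, mul_assoc,
      ← Real.rpow_add hY0]
    norm_num
    ring
  rw [← hpow.symm] at hfin
  calc (n : ℝ) ≤ 85 * (Y / r) * (1 + Real.log t) := by rw [hpow]; exact hfin
    _ ≤ 100 * (Y / r) * (1 + Real.log t) := by
        have : 0 ≤ (Y : ℝ) / r * (1 + Real.log t) := by positivity
        nlinarith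
    _ = _ := by rw [hpow]; ring

end Pool.Agent.CG
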