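import Pool.Agent.Lib_helper49.CG.Fin

/-!
# Sequences with distinct block sums: local periods of the gaps (MP_7feddf_nt), reciprocal sums
-/

set_option autoImplicit false

namespace Pool.Agent.CG

open Finset

/-- Q1 for sequences with few changes of monotonicity of the gaps -/
theorem sum_pieces {A : ℝ} (hA : 0 ≤ A) : ∃ C : ℝ, ∀ (k : ℕ) (a : ℕ → ℕ), Ad k a →
    ∀ D : Finset ℕ, Cut k a D →
      (∀ x : ℝ, 2 ≤ x → ((cuts k a D x).card : ℝ) ≤ A * x / Real.log x ^ 5) →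
      ∑ i ∈ range k, 1 / (a i : ℝ) ≤ C := by
  classical
  set C5 : ℝ := ∑' L : ℕ, (L : ℝ) ^ 5 / 2 ^ L with hC5
  have hC5' : ∀ L : ℕ, (L : ℝ) ^ 5 ≤ C5 * 2 ^ L := by
    intro L
    have h := (sum_geom 5).le_tsum L fun j _ => by positivity
    rwa [← hC5, div_le_iff₀ (by positivity)] at h
  have hC50 : 0 ≤ C5 := tsum_nonneg fun L => by positivity
  set A' : ℝ := 32 * A + 1 + C5 with hA'
  have hA'0 : 1 ≤ A' := by rw [hA']; linarith
  set β : ℕ → ℝ := fun L => (if L < 2 then 1 else 0) + A' * (L : ℝ) ^ (-(5 : ℝ)) +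
    27000 * A' ^ (1 / 4 : ℝ) * (L : ℝ) ^ (-(9 / 8) : ℝ) with hβ
  have hβ0 : ∀ L, 0 ≤ β L := by
    intro L
    rw [hβ]
    dsimp only
    have h1 : (0 : ℝ) ≤ if L < 2 then 1 else 0 := by split_ifs <;> norm_num
    have h2 : 0 ≤ A' * (L : ℝ) ^ (-(5 : ℝ)) := by positivity
    have h3 : 0 ≤ 27000 * A' ^ (1 / 4 : ℝ) * (L : ℝ) ^ (-(9 / 8) : ℝ) := by positivity
    linarith
  have hβs : Summable β := by
    rw [hβ]
    exact (sum_small.add ((sum_rpow (by norm_num : (1 : ℝ) < 5)).mul_left A')).add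
      ((sum_rpow (by norm_num : (1 : ℝ) < 9 / 8)).mul_left _)
  refine ⟨∑' L, β L, fun k a ha D hD hcut => recip ha β hβ0 hβs fun L => ?_⟩
  set F := (range k).filter fun i => Nat.log 2 (a i) = L with hF
  have h2L : (0 : ℝ) < 2 ^ L := by positivity
  have htriv : (F.card : ℝ) ≤ 2 ^ L := by
    have := card_log_le ha L
    exact_mod_cast this
  have hpart : ∀ y : ℝ, 1 ≤ y → y ≤ β L → (F.card : ℝ) ≤ 2 ^ L * β L := by
    intro y h1 h2
    nlinarith
  rcases Nat.lt_or_ge L 2 with hL | hL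
  · refine hpart 1 le_rfl ?_
    rw [hβ]
    dsimp only
    rw [if_pos hL]
    have h2 : 0 ≤ A' * (L : ℝ) ^ (-(5 : ℝ)) := by positivity
    have h3 : 0 ≤ 27000 * A' ^ (1 / 4 : ℝ) * (L : ℝ) ^ (-(9 / 8) : ℝ) := by positivity
    linarith
  set l : ℝ := (L : ℝ) with hl
  have hl2 : 2 ≤ l := by rw [hl]; exact_mod_cast hL
  have hl0 : 0 < l := by linarith
  set Y : ℕ := 2 ^ (L + 1) with hY
  have hYr : (Y : ℝ) = 2 * 2 ^ L := by rw [hY]; push_cast; ring
  have hY0 : (0 : ℝ) < Y := by rw [hYr]; positivity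
  have hl5 : (0 : ℝ) < l ^ 5 := by positivity
  obtain ⟨n, hn, hnY⟩ := initial ha Y
  have hFn : (F.card : ℝ) ≤ n := by
    have h1 := card_le_card (card_log ha (L := L) hnY)
    rw [card_range] at h1
    exact_mod_cast h1
  -- the number of cuts
  have hc : ((cuts k a D Y).card : ℝ) ≤ (32 * A + 1) * Y / l ^ 5 := by
    refine (hcut Y ?_).trans ?_
    · rw [hYr]
      have : (1 : ℝ) ≤ 2 ^ L := one_le_pow₀ (by norm_num)
      linarith
    · have h1 := logY (L := L)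
      rw [← hY, ← hl] at h1
      have h2 : l ^ 5 / 32 ≤ Real.log Y ^ 5 := by
        have h3 : (l / 2) ^ 5 ≤ Real.log Y ^ 5 := pow_le_pow_left₀ (by positivity) h1 5
        calc l ^ 5 / 32 = (l / 2) ^ 5 := by ring
          _ ≤ _ := h3
      have h4 : (0 : ℝ) < Real.log Y ^ 5 := lt_of_lt_of_le (by positivity) h2
      rw [div_le_div_iff₀ h4 hl5]
      have h5 : A * Y * l ^ 5 ≤ A * Y * (32 * Real.log Y ^ 5) :=
        mul_le_mul_of_nonneg_left (by linarith) (by positivity)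
      have h6 : 0 ≤ (Y : ℝ) * Real.log Y ^ 5 := by positivity
      nlinarith
  set T : ℕ := ⌊(32 * A + 1) * Y / l ^ 5⌋₊ + 1 with hT
  have hT1 : (cuts k a D Y).card + 1 ≤ T := by
    rw [hT]
    exact Nat.succ_le_succ (Nat.le_floor hc)
  have hx0 : 0 ≤ (32 * A + 1) * Y / l ^ 5 := by positivity
  have hTl : (Y : ℝ) / l ^ 5 ≤ T := by
    have h1 : (32 * A + 1) * Y / l ^ 5 < T := by
      rw [hT]
      push_cast
      exact Nat.lt_floor_add_one _
    refine le_trans ?_ h1.le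
    rw [div_le_div_iff_of_pos_right hl5]
    nlinarith
  have hTu : (T : ℝ) ≤ A' * Y / l ^ 5 := by
    have h1 : (T : ℝ) ≤ (32 * A + 1) * Y / l ^ 5 + 1 := by
      rw [hT]
      push_cast
      linarith [Nat.floor_le hx0]
    have h2 : 1 ≤ C5 * Y / l ^ 5 := by
      rw [le_div_iff₀ hl5, one_mul, hYr]
      have h3 := hC5' L
      have h4 : 0 ≤ C5 * 2 ^ L := by positivity
      nlinarith
    calc (T : ℝ) ≤ (32 * A + 1) * Y / l ^ 5 + C5 * Y / l ^ 5 := by linarith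
      _ = _ := by rw [hA']; ring
  have hT0 : (0 : ℝ) < T := lt_of_lt_of_le (by positivity) hTl
  rcases Nat.lt_or_ge Y T with hlt | hge
  · refine hpart (A' * l ^ (-(5 : ℝ))) ?_ ?_
    · have h1 : (Y : ℝ) ≤ T := by exact_mod_cast hlt.le
      have h2 : (Y : ℝ) ≤ A' * Y / l ^ 5 := h1.trans hTu
      rw [le_div_iff₀ hl5] at h2
      have h3 : l ^ 5 ≤ A' := by
        have h4 : (Y : ℝ) * l ^ 5 ≤ Y * A' := by linarith
        exact le_of_mul_le_mul_left h4 hY0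
      rw [Real.rpow_neg hl0.le, ← div_eq_mul_inv, le_div_iff₀ (by positivity), one_mul]
      have h5 : l ^ (5 : ℝ) = l ^ 5 := by
        rw [show (5 : ℝ) = ((5 : ℕ) : ℝ) by norm_num, Real.rpow_natCast]
      rw [h5]
      exact h3
    · rw [hβ]
      dsimp only
      have h1 : (0 : ℝ) ≤ if L < 2 then 1 else 0 := by split_ifs <;> norm_num
      have h3 : 0 ≤ 27000 * A' ^ (1 / 4 : ℝ) * (L : ℝ) ^ (-(9 / 8) : ℝ) := by positivity
      linarith
  · have hmain := card_pieces ha D hD hn hnY hT1 hge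
    have hlog : 1 + Real.log ((Y : ℝ) / T) ≤ 41 * l ^ (1 / 8 : ℝ) := by
      have h1 : (Y : ℝ) / T ≤ l ^ 5 := by
        rw [div_le_iff₀ hT0]
        rw [div_le_iff₀ hl5] at hTl
        linarith
      have h2 : Real.log ((Y : ℝ) / T) ≤ Real.log (l ^ 5) :=
        Real.log_le_log (by positivity) h1
      rw [Real.log_pow] at h2
      have h3 := log_le_rp (show 1 ≤ l by linarith)
      have h4 : 1 ≤ l ^ (1 / 8 : ℝ) := Real.one_le_rpow (by linarith) (by norm_num)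
      push_cast at h2
      linarith
    have hlog0 : 0 ≤ 1 + Real.log ((Y : ℝ) / T) := by
      have h1 : (1 : ℝ) ≤ (Y : ℝ) / T := by
        rw [one_le_div hT0]
        exact_mod_cast hge
      have := Real.log_nonneg h1
      linarith
    have hTq : (T : ℝ) ^ (1 / 4 : ℝ) ≤ A' ^ (1 / 4 : ℝ) * (Y : ℝ) ^ (1 / 4 : ℝ) *
        l ^ (-(5 / 4) : ℝ) := by
      refine (Real.rpow_le_rpow hT0.le hTu (by norm_num)).trans (le_of_eq ?_)
      rw [Real.div_rpow (by positivity) hl5.le, Real.mul_rpow (by linarith) hY0.le,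
        ← Real.rpow_natCast, ← Real.rpow_mul hl0.le, Real.rpow_neg hl0.le, div_eq_mul_inv]
      norm_num
    have hYY : (Y : ℝ) ^ (3 / 4 : ℝ) * (Y : ℝ) ^ (1 / 4 : ℝ) = Y := by
      rw [← Real.rpow_add hY0]
      norm_num
    have hll : l ^ (-(5 / 4) : ℝ) * l ^ (1 / 8 : ℝ) = l ^ (-(9 / 8) : ℝ) := by
      rw [← Real.rpow_add hl0]
      norm_num
    have hfin : (n : ℝ) ≤ 2 ^ L * (27000 * A' ^ (1 / 4 : ℝ) * l ^ (-(9 / 8) : ℝ)) := by
      calc (n : ℝ) ≤ 100 * (Y : ℝ) ^ (3 / 4 : ℝ) * (T : ℝ) ^ (1 / 4 : ℝ) *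
            (1 + Real.log (Y / T)) := hmain
        _ ≤ 100 * (Y : ℝ) ^ (3 / 4 : ℝ) * (A' ^ (1 / 4 : ℝ) * (Y : ℝ) ^ (1 / 4 : ℝ) *
              l ^ (-(5 / 4) : ℝ)) * (41 * l ^ (1 / 8 : ℝ)) := by
            refine mul_le_mul (mul_le_mul_of_nonneg_left hTq (by positivity)) hlog hlog0
              (by positivity)
        _ = 4100 * A' ^ (1 / 4 : ℝ) * ((Y : ℝ) ^ (3 / 4 : ℝ) * (Y : ℝ) ^ (1 / 4 : ℝ)) *
              (l ^ (-(5 / 4) : ℝ) * l ^ (1 / 8 : ℝ)) := by ring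
        _ = 8200 * A' ^ (1 / 4 : ℝ) * 2 ^ L * l ^ (-(9 / 8) : ℝ) := by
            rw [hYY, hll, hYr]
            ring
        _ ≤ _ := by
            have h1 : 0 ≤ A' ^ (1 / 4 : ℝ) * 2 ^ L * l ^ (-(9 / 8) : ℝ) := by positivity
            nlinarith
    refine hFn.trans (hfin.trans ?_)
    refine mul_le_mul_of_nonneg_left ?_ h2L.le
    rw [hβ]
    dsimp only
    have h1 : (0 : ℝ) ≤ if L < 2 then 1 else 0 := by split_ifs <;> norm_num
    have h2 : 0 ≤ A' * (L : ℝ) ^ (-(5 : ℝ)) := by positivity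
    linarith

end Pool.Agent.CG
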