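import Pool.Agent.Lib_helper49.CG.Fin2

/-!
# Sequences with distinct block sums: local periods of the gaps (MP_7feddf_nt), reciprocal sums
-/

set_option autoImplicit false

namespace Pool.Agent.CG

open Finset

open scoped Classical in
/-- The terms `≤ x` which are not followed by `L ^ (5 b + 3)` gaps with a period `≤ L ^ b`, where `L` is
the binary logarithm of the term. -/
noncomputable def irr (k : ℕ) (a : ℕ → ℕ) (b : ℕ) (x : ℝ) : Finset ℕ :=
  (range k).filter fun v => (a v : ℝ) ≤ x ∧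
    ¬ Reg k a (Nat.log 2 (a v) ^ b) (Nat.log 2 (a v) ^ (5 * b + 3)) v

/-- Q1 for sequences with locally periodic gaps -/
theorem sum_local (b : ℕ) {A : ℝ} (hA : 0 ≤ A) : ∃ C : ℝ, ∀ (k : ℕ) (a : ℕ → ℕ), Ad k a →
      (∀ x : ℝ, 2 ≤ x → ((irr k a b x).card : ℝ) ≤ A * x / Real.log x ^ 2) →
      ∑ i ∈ range k, 1 / (a i : ℝ) ≤ C := by
  classical
  set K : ℝ := 160 * (40 * b + 25) with hK
  have hK0 : 0 ≤ K := by positivity
  set β : ℕ → ℝ := fun L => (if L < 2 then 1 else 0) + 8 * A * (L : ℝ) ^ (-(2 : ℝ)) +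
    K * (L : ℝ) ^ (-(11 / 8) : ℝ) + (L : ℝ) ^ (5 * b + 3) / 2 ^ L with hβ
  have hβ1 : ∀ L : ℕ, (0 : ℝ) ≤ if L < 2 then 1 else 0 := by
    intro L
    split_ifs <;> norm_num
  have hβ0 : ∀ L, 0 ≤ β L := by
    intro L
    rw [hβ]
    dsimp only
    have h1 := hβ1 L
    have h2 : 0 ≤ 8 * A * (L : ℝ) ^ (-(2 : ℝ)) := by positivity
    have h3 : 0 ≤ K * (L : ℝ) ^ (-(11 / 8) : ℝ) := by positivity
    have h4 : 0 ≤ (L : ℝ) ^ (5 * b + 3) / 2 ^ L := by positivity
    linarith
  have hβs : Summable β := by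
    rw [hβ]
    exact ((sum_small.add ((sum_rpow (by norm_num : (1 : ℝ) < 2)).mul_left _)).add
      ((sum_rpow (by norm_num : (1 : ℝ) < 11 / 8)).mul_left _)).add (sum_geom _)
  refine ⟨∑' L, β L, fun k a ha hirr => recip ha β hβ0 hβs fun L => ?_⟩
  set F := (range k).filter fun i => Nat.log 2 (a i) = L with hF
  have h2L : (0 : ℝ) < 2 ^ L := by positivity
  rcases Nat.lt_or_ge L 2 with hL | hL
  · have htriv : (F.card : ℝ) ≤ 2 ^ L := by
      have := card_log_le ha L
      exact_mod_cast this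
    have h1 : 1 ≤ β L := by
      rw [hβ]
      dsimp only
      rw [if_pos hL]
      have h2 : 0 ≤ 8 * A * (L : ℝ) ^ (-(2 : ℝ)) := by positivity
      have h3 : 0 ≤ K * (L : ℝ) ^ (-(11 / 8) : ℝ) := by positivity
      have h4 : 0 ≤ (L : ℝ) ^ (5 * b + 3) / 2 ^ L := by positivity
      linarith
    nlinarith
  set l : ℝ := (L : ℝ) with hl
  have hl2 : 2 ≤ l := by rw [hl]; exact_mod_cast hL
  have hl0 : 0 < l := by linarith
  set Y : ℕ := 2 ^ (L + 1) with hY
  have hYr : (Y : ℝ) = 2 * 2 ^ L := by rw [hY]; push_cast; ring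
  have hY0 : (0 : ℝ) < Y := by rw [hYr]; positivity
  obtain ⟨n, hn, hnY⟩ := initial ha Y
  have hsub := card_log ha (L := L) hnY
  rw [← hF] at hsub
  set B : ℕ := L ^ b with hB
  set R : ℕ := L ^ (5 * b + 3) with hR
  have hB1 : 1 ≤ B := Nat.one_le_pow _ _ (by omega)
  have hR1 : 1 ≤ R := Nat.one_le_pow _ _ (by omega)
  set W1 := F.filter fun v => ¬ Reg k a B R v with hW1
  set W2 := F.filter fun v => Reg k a B R v ∧ v + R < n with hW2
  set W3 := (range n).filter fun v => n ≤ v + R with hW3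
  have hcov : F ⊆ W1 ∪ W2 ∪ W3 := by
    intro v hv
    have h1 := mem_range.1 (hsub hv)
    by_cases h2 : Reg k a B R v
    · rcases Nat.lt_or_ge (v + R) n with h3 | h3
      · refine mem_union_left _ (mem_union_right _ ?_)
        rw [hW2, mem_filter]
        exact ⟨hv, h2, h3⟩
      · refine mem_union_right _ ?_
        rw [hW3, mem_filter, mem_range]
        exact ⟨h1, h3⟩
    · refine mem_union_left _ (mem_union_left _ ?_)
      rw [hW1, mem_filter]
      exact ⟨hv, h2⟩
  have hcard : (F.card : ℝ) ≤ W1.card + W2.card + W3.card := by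
    have h1 : F.card ≤ W1.card + W2.card + W3.card :=
      (card_le_card hcov).trans ((card_union_le _ _).trans
        (Nat.add_le_add_right (card_union_le _ _) _))
    exact_mod_cast h1
  -- irregular places
  have e1 : (W1.card : ℝ) ≤ 2 ^ L * (8 * A * l ^ (-(2 : ℝ))) := by
    have h1 : W1 ⊆ irr k a b Y := by
      intro v hv
      rw [hW1, mem_filter, hF, mem_filter, mem_range] at hv
      unfold irr
      rw [mem_filter, mem_range]
      refine ⟨hv.1.1, ?_, ?_⟩
      · have h2 := mem_range.1 (hsub (by rw [hF, mem_filter, mem_range]; exact hv.1))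
        exact_mod_cast (hnY v hv.1.1).1 h2
      · rw [hv.1.2, ← hB, ← hR]
        exact hv.2
    have h2 : (W1.card : ℝ) ≤ (irr k a b Y).card := by exact_mod_cast card_le_card h1
    refine h2.trans ((hirr Y ?_).trans ?_)
    · rw [hYr]
      have : (1 : ℝ) ≤ 2 ^ L := one_le_pow₀ (by norm_num)
      linarith
    · have h3 := logY (L := L)
      rw [← hY, ← hl] at h3
      have h4 : l ^ 2 / 4 ≤ Real.log Y ^ 2 := by
        have h5 : (l / 2) ^ 2 ≤ Real.log Y ^ 2 := pow_le_pow_left₀ (by positivity) h3 2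
        calc l ^ 2 / 4 = (l / 2) ^ 2 := by ring
          _ ≤ _ := h5
      have h6 : (0 : ℝ) < Real.log Y ^ 2 := lt_of_lt_of_le (by positivity) h4
      have h7 : l ^ (-(2 : ℝ)) = (l ^ 2)⁻¹ := by
        rw [Real.rpow_neg hl0.le, show (2 : ℝ) = ((2 : ℕ) : ℝ) by norm_num, Real.rpow_natCast]
      rw [h7, div_le_iff₀ h6]
      have h8 : 2 ^ L * (8 * A * (l ^ 2)⁻¹) * (l ^ 2 / 4) = A * Y := by
        rw [hYr]
        field_simp
        ring
      rw [← h8]
      exact mul_le_mul_of_nonneg_left h4 (by positivity)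
  -- the end of the segment
  have e3 : (W3.card : ℝ) ≤ 2 ^ L * (l ^ (5 * b + 3) / 2 ^ L) := by
    have h1 : W3.card ≤ R := by
      have h2 : W3 ⊆ Ico (n - R) n := by
        intro v hv
        rw [hW3, mem_filter, mem_range] at hv
        rw [mem_Ico]
        omega
      have h3 := card_le_card h2
      rw [Nat.card_Ico] at h3
      omega
    have h2 : (W3.card : ℝ) ≤ R := by exact_mod_cast h1
    rw [mul_div_cancel₀ _ h2L.ne']
    refine h2.trans (le_of_eq ?_)
    rw [hR, hl]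
    push_cast
    rfl
  -- regular places
  have e2 : (W2.card : ℝ) ≤ 2 ^ L * (K * l ^ (-(11 / 8) : ℝ)) := by
    have h1 := card_reg ha (B := B) (R := R) (Y := Y) hB1 hR1 W2 fun v hv => by
      rw [hW2, mem_filter] at hv
      exact ⟨by omega, (hnY (v + R) (by omega)).1 hv.2.2, hv.2.1⟩
    have hBr : (0 : ℝ) < B := by exact_mod_cast hB1
    have hRr : (1 : ℝ) ≤ R := by exact_mod_cast hR1
    have h3 : Real.sqrt R = B ^ 2 * Real.sqrt B * l ^ (3 / 2 : ℝ) := by
      have h4 : (R : ℝ) = (B ^ 2 * Real.sqrt B * l ^ (3 / 2 : ℝ)) ^ 2 := by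
        rw [mul_pow, mul_pow, Real.sq_sqrt hBr.le, ← Real.rpow_natCast (l ^ (3 / 2 : ℝ)),
          ← Real.rpow_mul hl0.le, hR, hB]
        norm_num
        rw [← hl]
        ring
      rw [h4, Real.sqrt_sq (by positivity)]
    have h5 : Real.log (2 * R) ≤ (40 * b + 25) * l ^ (1 / 8 : ℝ) := by
      have h6 : Real.log (2 * R) = Real.log 2 + (5 * b + 3) * Real.log l := by
        rw [Real.log_mul (by norm_num) (by linarith), hR]
        push_cast
        rw [Real.log_pow]
        push_cast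
        rfl
      have h7 := log_le_rp (show 1 ≤ l by linarith)
      have h8 : 1 ≤ l ^ (1 / 8 : ℝ) := Real.one_le_rpow (by linarith) (by norm_num)
      have h9 := Real.log_two_lt_d9
      have h10 : (5 * (b : ℝ) + 3) * Real.log l ≤ (5 * b + 3) * (8 * l ^ (1 / 8 : ℝ)) :=
        mul_le_mul_of_nonneg_left h7 (by positivity)
      rw [h6]
      nlinarith
    have h11 : l ^ (-(11 / 8) : ℝ) = l ^ (1 / 8 : ℝ) / l ^ (3 / 2 : ℝ) := by
      rw [← Real.rpow_sub hl0]
      norm_num
    have hl32 : 0 < l ^ (3 / 2 : ℝ) := by positivity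
    refine h1.trans ?_
    rw [h3, h11]
    have h12 : 80 * (Y : ℝ) * (B ^ 2 * Real.sqrt B) *
        (Real.log (2 * R) / (B ^ 2 * Real.sqrt B * l ^ (3 / 2 : ℝ))) =
        80 * Y * (Real.log (2 * R) / l ^ (3 / 2 : ℝ)) := by
      have : Real.sqrt B ≠ 0 := (Real.sqrt_pos.2 hBr).ne'
      field_simp
    rw [h12]
    calc 80 * (Y : ℝ) * (Real.log (2 * R) / l ^ (3 / 2 : ℝ)) ≤
          80 * Y * ((40 * b + 25) * l ^ (1 / 8 : ℝ) / l ^ (3 / 2 : ℝ)) :=
          mul_le_mul_of_nonneg_left (div_le_div_of_nonneg_right h5 hl32.le) (by positivity)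
      _ = _ := by
          rw [hYr, hK]
          ring
  rw [hβ]
  dsimp only
  have h1 := hβ1 L
  nlinarith

end Pool.Agent.CG
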