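import Pool.Agent.Lib_helper49.CG.Mono

/-!
# Sequences with distinct block sums: local periods of the gaps (MP_7feddf_nt)
-/

set_option autoImplicit false

namespace Pool.Agent.CG

open Finset

/-- the next `R` gaps (as far as they exist) have a period `q ≤ B` -/
def Reg (k : ℕ) (a : ℕ → ℕ) (B R v : ℕ) : Prop :=
  ∃ q, 1 ≤ q ∧ q ≤ B ∧ ∀ i, v ≤ i → i + q < v + R → i + q + 1 < k → gap a (i + q) = gap a i

variable {k : ℕ} {a : ℕ → ℕ}

/-- periodic gaps -/
theorem per_of_gap (ha : Ad k a) {q R v : ℕ} (hv : v + R < k)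
    (h : ∀ i, v ≤ i → i + q < v + R → i + q + 1 < k → gap a (i + q) = gap a i) {L : ℕ}
    (hL : L + q ≤ R + 1) (hq : 1 ≤ q) : ∃ Q, Per k a q Q L v := by
  refine ⟨a (v + q) - a v, by omega, ?_⟩
  intro i hi
  obtain ⟨j, rfl⟩ := Nat.exists_eq_add_of_le hi
  induction j with
  | zero =>
    intro hj
    have := ha.inc v (v + q) (by omega) (by omega)
    rw [add_zero]
    omega
  | succ j ih =>
    intro hj
    have h1 := ih (by omega) (by omega)
    have h2 := h (v + j) (by omega) (by omega) (by omega)
    have h3 := gap_add ha (i := v + j) (by omega)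
    have h4 := gap_add ha (i := v + j + q) (by omega)
    rw [show v + (j + 1) + q = v + j + q + 1 by omega, show v + (j + 1) = v + j + 1 by omega]
    omega

/-- the places which are followed by `R` gaps with a period `≤ B` -/
theorem card_reg (ha : Ad k a) {B R Y : ℕ} (hB : 1 ≤ B) (hR : 1 ≤ R) (W : Finset ℕ)
    (hW : ∀ v ∈ W, v + R < k ∧ a (v + R) ≤ Y ∧ Reg k a B R v) :
    (W.card : ℝ) ≤ 80 * Y * (B ^ 2 * Real.sqrt B) * (Real.log (2 * R) / Real.sqrt R) := by
  classical
  have hB' : (1 : ℝ) ≤ B := by exact_mod_cast hB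
  have hR' : (1 : ℝ) ≤ R := by exact_mod_cast hR
  have hsR : 0 < Real.sqrt R := Real.sqrt_pos.2 (by linarith)
  have hsB : 1 ≤ Real.sqrt B := Real.one_le_sqrt.2 hB'
  have hl2 : (0.69 : ℝ) < Real.log 2 := by
    have := Real.log_two_gt_d9
    linarith
  have hlR : Real.log 2 ≤ Real.log (2 * R) := Real.log_le_log (by norm_num) (by linarith)
  rcases Nat.lt_or_ge R (6 * B) with hlt | hge
  · -- trivial bound
    have h1 : W.card ≤ Y := by
      have h2 : W.card ≤ (Icc 1 Y).card := by
        refine card_le_card_of_injOn a (fun v hv => ?_) ?_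
        · rw [mem_coe] at hv
          have h3 := hW v hv
          rw [mem_coe, mem_Icc]
          refine ⟨ha.pos v (by omega), le_trans ?_ h3.2.1⟩
          exact (ha.inc _ _ (by omega) h3.1).le
        · intro v hv v' hv' he
          rw [mem_coe] at hv hv'
          have h3 := hW v hv
          have h4 := hW v' hv'
          rcases Nat.lt_trichotomy v v' with h | h | h
          · have := ha.inc v v' h (by omega)
            omega
          · exact h
          · have := ha.inc v' v h (by omega)
            omega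
      rw [Nat.card_Icc] at h2
      omega
    have h1' : (W.card : ℝ) ≤ Y := by exact_mod_cast h1
    have h5 : Real.sqrt R ≤ 3 * Real.sqrt B := by
      have h6 : (R : ℝ) ≤ 9 * B := by
        have : (R : ℝ) < 6 * B := by exact_mod_cast hlt
        linarith
      calc Real.sqrt R ≤ Real.sqrt (9 * B) := Real.sqrt_le_sqrt h6
        _ = 3 * Real.sqrt B := by
            rw [Real.sqrt_mul (by norm_num), show (9 : ℝ) = 3 ^ 2 by norm_num,
              Real.sqrt_sq (by norm_num)]
    have h7 : 1 ≤ 80 * (B ^ 2 * Real.sqrt B) * (Real.log (2 * R) / Real.sqrt R) := by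
      rw [← mul_div_assoc, le_div_iff₀ hsR, one_mul]
      have h8 : (1 : ℝ) ≤ B ^ 2 := one_le_pow₀ hB'
      have h9 : Real.sqrt B ≤ B ^ 2 * Real.sqrt B := by nlinarith
      have h10 : Real.sqrt B * 0.69 ≤ B ^ 2 * Real.sqrt B * Real.log (2 * R) :=
        mul_le_mul h9 (by linarith) (by norm_num) (by positivity)
      nlinarith
    calc (W.card : ℝ) ≤ Y * 1 := by linarith
      _ ≤ Y * (80 * (B ^ 2 * Real.sqrt B) * (Real.log (2 * R) / Real.sqrt R)) :=
          mul_le_mul_of_nonneg_left h7 (Nat.cast_nonneg Y)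
      _ = _ := by ring
  · set P : ℕ := R / (3 * B) with hPdef
    have hP1 : 3 * B * P ≤ R := Nat.mul_div_le R (3 * B)
    have hP2 : R < 3 * B * (P + 1) := by
      rw [mul_comm]
      exact (Nat.div_lt_iff_lt_mul (by omega)).1 (Nat.lt_succ_self _)
    have hP : 2 ≤ P := by
      rw [hPdef, Nat.le_div_iff_mul_le (by omega)]
      omega
    have hP' : (2 : ℝ) ≤ P := by exact_mod_cast hP
    have hsP : 0 < Real.sqrt P := Real.sqrt_pos.2 (by linarith)
    -- split with respect to the period
    set Wq : ℕ → Finset ℕ := fun q => W.filter fun v =>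
      ∀ i, v ≤ i → i + q < v + R → i + q + 1 < k → gap a (i + q) = gap a i with hWq
    have hsub : W ⊆ (Icc 1 B).biUnion Wq := by
      intro v hv
      obtain ⟨-, -, q, hq1, hq2, hq3⟩ := hW v hv
      rw [mem_biUnion]
      exact ⟨q, mem_Icc.2 ⟨hq1, hq2⟩, by rw [hWq]; exact mem_filter.2 ⟨hv, hq3⟩⟩
    have hcard : W.card ≤ ∑ q ∈ Icc 1 B, (Wq q).card := (card_le_card hsub).trans card_biUnion_le
    have hone : ∀ q ∈ Icc 1 B, ((Wq q).card : ℝ) ≤
        30 * B * Y * (Real.log P / Real.sqrt P) := by
      intro q hq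
      rw [mem_Icc] at hq
      have hqP : (q + 1) * P + q ≤ R := by
        have h1 : (q + 1) * P ≤ 2 * B * P := Nat.mul_le_mul_right P (by omega)
        have h2 : 2 * B ≤ B * P := by
          rw [mul_comm 2 B]
          exact Nat.mul_le_mul_left B hP
        have h3 : 3 * B * P = 2 * B * P + B * P := by ring
        omega
      have hP0 : 2 * (q + 1) ≤ (q + 1) * P := by
        rw [mul_comm 2]
        exact Nat.mul_le_mul_left _ hP
      have h1 := count_real ha (q := q) (P := P) (Y := Y) hq.1 (Wq q)
        (fun v hv => by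
          rw [hWq] at hv
          have hv' := mem_filter.1 hv
          exact per_of_gap ha (hW v hv'.1).1 hv'.2 (by omega) hq.1)
        (fun v hv => by
          rw [hWq] at hv
          have hv' := hW v (mem_filter.1 hv).1
          refine le_trans ?_ hv'.2.1
          rcases Nat.lt_or_ge (v + (q + 1) * P + q - 1) (v + R) with h2 | h2
          · exact (ha.inc _ _ h2 hv'.1).le
          · rw [show v + (q + 1) * P + q - 1 = v + R by omega]) hP
      refine h1.trans ?_
      have hqB : (q : ℝ) ≤ B := by exact_mod_cast hq.2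
      have hlog : 0 ≤ Real.log P / Real.sqrt P :=
        div_nonneg (Real.log_nonneg (by linarith)) hsP.le
      have h2 : (q : ℝ) * Y ≤ B * Y := mul_le_mul_of_nonneg_right hqB (Nat.cast_nonneg Y)
      have h3 : (q : ℝ) * Y * (Real.log P / Real.sqrt P) ≤ B * Y * (Real.log P / Real.sqrt P) :=
        mul_le_mul_of_nonneg_right h2 hlog
      nlinarith
    have htot : (W.card : ℝ) ≤ B * (30 * B * Y * (Real.log P / Real.sqrt P)) := by
      calc (W.card : ℝ) ≤ ((∑ q ∈ Icc 1 B, (Wq q).card : ℕ) : ℝ) := by exact_mod_cast hcard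
        _ = ∑ q ∈ Icc 1 B, ((Wq q).card : ℝ) := by push_cast; rfl
        _ ≤ (Icc 1 B).card • (30 * B * Y * (Real.log P / Real.sqrt P)) :=
            sum_le_card_nsmul _ _ _ hone
        _ = _ := by rw [Nat.card_Icc, nsmul_eq_mul, Nat.add_sub_cancel]
    -- from `P` to `R`
    have hPR : (R : ℝ) ≤ 6 * B * P := by
      have h1 : (R : ℝ) < 3 * B * (P + 1) := by exact_mod_cast hP2
      nlinarith
    have hPR' : (P : ℝ) ≤ R := by
      have h1 : P ≤ R := by
        have h2 : 1 * P ≤ 3 * B * P := Nat.mul_le_mul_right P (by omega)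
        omega
      exact_mod_cast h1
    have hlogP : Real.log P ≤ Real.log (2 * R) := Real.log_le_log (by linarith) (by linarith)
    have hsq : Real.sqrt R ≤ 2.5 * Real.sqrt B * Real.sqrt P := by
      calc Real.sqrt R ≤ Real.sqrt (6.25 * (B * P)) := Real.sqrt_le_sqrt (by nlinarith)
        _ = 2.5 * Real.sqrt B * Real.sqrt P := by
            rw [Real.sqrt_mul (by norm_num), Real.sqrt_mul (by positivity),
              show (6.25 : ℝ) = 2.5 ^ 2 by norm_num, Real.sqrt_sq (by norm_num), mul_assoc]
    have hfin : Real.log P / Real.sqrt P ≤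
        2.5 * Real.sqrt B * (Real.log (2 * R) / Real.sqrt R) := by
      rw [← mul_div_assoc, div_le_div_iff₀ hsP hsR]
      have hlogP0 : 0 ≤ Real.log P := Real.log_nonneg (by linarith)
      calc Real.log P * Real.sqrt R ≤ Real.log (2 * R) * (2.5 * Real.sqrt B * Real.sqrt P) :=
            mul_le_mul hlogP hsq hsR.le (hlogP0.trans hlogP)
        _ = _ := by ring
    calc (W.card : ℝ) ≤ B * (30 * B * Y * (Real.log P / Real.sqrt P)) := htot
      _ ≤ B * (30 * B * Y * (2.5 * Real.sqrt B * (Real.log (2 * R) / Real.sqrt R))) := by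
          have h1 : 30 * B * Y * (Real.log P / Real.sqrt P) ≤
              30 * B * Y * (2.5 * Real.sqrt B * (Real.log (2 * R) / Real.sqrt R)) :=
            mul_le_mul_of_nonneg_left hfin (by positivity)
          exact mul_le_mul_of_nonneg_left h1 (by linarith)
      _ = 75 * Y * (B ^ 2 * Real.sqrt B) * (Real.log (2 * R) / Real.sqrt R) := by ring
      _ ≤ _ := by
          have h1 : 0 ≤ Y * (B ^ 2 * Real.sqrt B) * (Real.log (2 * R) / Real.sqrt R) := by
            have h2 : 0 ≤ Real.log (2 * R) := by linarith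
            positivity
          nlinarith

end Pool.Agent.CG
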