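import Pool.Agent.Lib_helper49.CG.Prime

/-!
# Sequences with distinct block sums: gaps with few turning points (MP_7feddf_nt)
-/

set_option autoImplicit false

namespace Pool.Agent.CG

open Finset

/-- the gaps -/
def gap (a : ℕ → ℕ) (i : ℕ) : ℕ := a (i + 1) - a i

/-- between two cuts the gaps are monotone: `i ∈ D` is a cut between the gaps `i` and `i + 1` -/
def Cut (k : ℕ) (a : ℕ → ℕ) (D : Finset ℕ) : Prop :=
  ∀ u w, u ≤ w → w + 1 < k → (∀ i ∈ D, i < u ∨ w ≤ i) →
    (∀ i j, u ≤ i → i ≤ j → j ≤ w → gap a i ≤ gap a j) ∨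
      (∀ i j, u ≤ i → i ≤ j → j ≤ w → gap a j ≤ gap a i)

variable {k : ℕ} {a : ℕ → ℕ}

theorem gap_add (ha : Ad k a) {i : ℕ} (hi : i + 1 < k) : a (i + 1) = a i + gap a i := by
  have := ha.inc i (i + 1) (by omega) hi
  unfold gap
  omega

theorem gap_pos (ha : Ad k a) {i : ℕ} (hi : i + 1 < k) : 1 ≤ gap a i := by
  have := ha.inc i (i + 1) (by omega) hi
  unfold gap
  omega

/-- the number of changes of small gaps -/
theorem card_changes (ha : Ad k a) {n G : ℕ} (D : Finset ℕ) (hD : Cut k a D) (hn : n ≤ k)
    (Ch : Finset ℕ) (hCh : ∀ i ∈ Ch, i + 2 < n ∧ gap a i ≠ gap a (i + 1) ∧ gap a i ≤ G) :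
    Ch.card ≤ (D.filter (· < n)).card + ((D.filter (· < n)).card + 1) * G := by
  classical
  set D' := D.filter (· < n) with hD'
  have h1 : (Ch.filter fun i => i ∈ D).card ≤ D'.card := by
    refine card_le_card fun i hi => ?_
    rw [mem_filter] at hi
    rw [hD', mem_filter]
    exact ⟨hi.2, by have := (hCh i hi.1).1; omega⟩
  have h2 : (Ch.filter fun i => ¬ i ∈ D).card ≤ (range (D'.card + 1) ×ˢ Icc 1 G).card := by
    refine card_le_card_of_injOn (fun i => ((D'.filter (· < i)).card, gap a i)) ?_ ?_
    · intro i hi
      rw [mem_coe, mem_filter] at hi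
      have h3 := hCh i hi.1
      rw [mem_coe, mem_product, mem_range, mem_Icc]
      exact ⟨Nat.lt_succ_of_le (card_filter_le _ _), gap_pos ha (by omega), h3.2.2⟩
    · have key : ∀ i j, i ∈ Ch → ¬ i ∈ D → j ∈ Ch → i < j →
          (D'.filter (· < i)).card = (D'.filter (· < j)).card → gap a i ≠ gap a j := by
        intro i j hi hiD hj hij hc he
        have h3 := hCh i hi
        have h4 := hCh j hj
        have h5 : D'.filter (· < i) = D'.filter (· < j) := by
          refine eq_of_subset_of_card_le (fun x hx => ?_) hc.ge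
          rw [mem_filter] at hx ⊢
          exact ⟨hx.1, by omega⟩
        have h6 : ∀ x ∈ D, x < i ∨ j ≤ x := by
          intro x hx
          by_contra hneg
          push Not at hneg
          have h7 : x ∈ D'.filter (· < j) := by
            rw [mem_filter, hD', mem_filter]
            exact ⟨⟨hx, by omega⟩, hneg.2⟩
          rw [← h5, mem_filter] at h7
          omega
        rcases hD i j hij.le (by omega) h6 with h7 | h7
        · have h8 := h7 i (i + 1) le_rfl (by omega) (by omega)
          have h9 := h7 (i + 1) j (by omega) (by omega) le_rfl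
          have := h3.2.1
          omega
        · have h8 := h7 i (i + 1) le_rfl (by omega) (by omega)
          have h9 := h7 (i + 1) j (by omega) (by omega) le_rfl
          have := h3.2.1
          omega
      intro i hi j hj he
      rw [mem_coe, mem_filter] at hi hj
      rw [Prod.mk.injEq] at he
      rcases Nat.lt_trichotomy i j with h | h | h
      · exact absurd he.2 (key i j hi.1 hi.2 hj.1 h he.1)
      · exact h
      · exact absurd he.2.symm (key j i hj.1 hj.2 hi.1 h he.1.symm)
  rw [card_product, card_range, Nat.card_Icc, Nat.add_sub_cancel] at h2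
  rw [← card_filter_add_card_filter_not (s := Ch) (fun i => i ∈ D)]
  omega

/-- the number of terms `≤ Y` -/
theorem card_mono (ha : Ad k a) {n Y P G : ℕ} (D : Finset ℕ) (hD : Cut k a D) (hn : n ≤ k)
    (hY : ∀ i, i < n → a i ≤ Y) (hP : 2 ≤ P) :
    ∃ x : ℕ, x * (G + 1) ≤ Y ∧ (n : ℝ) ≤ 2 * P + 30 * Y * (Real.log P / Real.sqrt P) + x +
      2 * P * (((D.filter (· < n)).card + 1) * (G + 1)) := by
  classical
  set V := range (n - 2 * P) with hV
  set W := V.filter fun v => ∃ Q, Per k a 1 Q ((1 + 1) * P) v with hW
  set V' := V.filter fun v => ¬ ∃ Q, Per k a 1 Q ((1 + 1) * P) v with hV'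
  set X := V'.filter fun v => ¬ gap a v ≤ G with hX
  set Z := V'.filter fun v => gap a v ≤ G with hZ
  set Ch := (range n).filter fun i => i + 2 < n ∧ gap a i ≠ gap a (i + 1) ∧ gap a i ≤ G with hCh
  have hWc : (W.card : ℝ) ≤ 30 * Y * (Real.log P / Real.sqrt P) := by
    have h := count_real ha (q := 1) (P := P) (Y := Y) le_rfl W
      (fun v hv => by
        rw [hW, mem_filter] at hv
        exact hv.2)
      (fun v hv => by
        rw [hW, mem_filter, hV, mem_range] at hv
        exact hY _ (by omega)) hP
    rw [Nat.cast_one, mul_one] at h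
    exact h
  have hXc : X.card * (G + 1) ≤ Y := by
    have h1 : X.card * (G + 1) ≤ ∑ v ∈ X, (a (v + 1) - a v) := by
      rw [← smul_eq_mul]
      refine card_nsmul_le_sum _ _ _ fun v hv => ?_
      rw [hX, mem_filter] at hv
      have := hv.2
      unfold gap at this
      omega
    have h2 := sum_diff ha (q := 1) (Y := Y) le_rfl X fun v hv => by
      rw [hX, mem_filter, hV', mem_filter, hV, mem_range] at hv
      exact ⟨by omega, hY _ (by omega)⟩
    omega
  have hZc : Z.card ≤ (Ch ×ˢ range (2 * P)).card := by
    have ex : ∀ v ∈ Z, ∃ i ∈ Ch, v ≤ i ∧ i < v + 2 * P := by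
      intro v hv
      rw [hZ, mem_filter, hV', mem_filter, hV, mem_range] at hv
      obtain ⟨⟨hv1, hv2⟩, hv3⟩ := hv
      by_contra hneg
      push Not at hneg
      have hg : ∀ i, v + i < v + 2 * P → gap a (v + i) = gap a v := by
        intro i
        induction i with
        | zero => intro _; rfl
        | succ i ih =>
          intro hi
          have h1 := ih (by omega)
          by_contra hne
          have h2 : v + i ∈ Ch := by
            rw [hCh, mem_filter, mem_range]
            refine ⟨by omega, by omega, ?_, by omega⟩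
            intro h3
            rw [add_assoc] at h3
            omega
          have := hneg (v + i) h2 (by omega)
          omega
      refine hv2 ⟨gap a v, by omega, fun i hi1 hi2 => ?_⟩
      obtain ⟨j, rfl⟩ := Nat.exists_eq_add_of_le hi1
      rw [gap_add ha (by omega), hg j (by omega)]
    choose! f hf1 hf2 hf3 using ex
    refine card_le_card_of_injOn (fun v => (f v, f v - v)) ?_ ?_
    · intro v hv
      rw [mem_coe] at hv
      rw [mem_coe, mem_product, mem_range]
      have h1 := hf2 v hv
      have h2 := hf3 v hv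
      exact ⟨hf1 v hv, by show f v - v < 2 * P; omega⟩
    · intro v hv v' hv' he
      rw [mem_coe] at hv hv'
      rw [Prod.mk.injEq] at he
      have h1 := hf2 v hv
      have h2 := hf2 v' hv'
      omega
  have hChc := card_changes ha (n := n) (G := G) D hD hn Ch fun i hi => by
    rw [hCh, mem_filter] at hi
    exact hi.2
  refine ⟨X.card, hXc, ?_⟩
  have h1 : n ≤ 2 * P + V.card := by
    rw [hV, card_range]
    omega
  have h2 : V.card = W.card + (Z.card + X.card) := by
    rw [hZ, hX, card_filter_add_card_filter_not, hW, hV', card_filter_add_card_filter_not]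
  have h3 : Z.card ≤ 2 * P * (((D.filter (· < n)).card + 1) * (G + 1)) := by
    rw [card_product, card_range] at hZc
    have h4 : Ch.card ≤ ((D.filter (· < n)).card + 1) * (G + 1) := by
      refine hChc.trans ?_
      nlinarith
    calc Z.card ≤ Ch.card * (2 * P) := hZc
      _ ≤ ((D.filter (· < n)).card + 1) * (G + 1) * (2 * P) := Nat.mul_le_mul_right _ h4
      _ = _ := by ring
  have h3' : (Z.card : ℝ) ≤ 2 * P * (((D.filter (· < n)).card + 1) * (G + 1)) := by
    exact_mod_cast h3
  have h1' : (n : ℝ) ≤ 2 * P + (W.card + (Z.card + X.card)) := by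
    rw [h2] at h1
    exact_mod_cast h1
  linarith

end Pool.Agent.CG
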