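import Pool.Agent.Lib_helper49.CG.Count

/-!
# Sequences with distinct block sums: local periods of the gaps (MP_7feddf_nt), the sum of the primes
-/

set_option autoImplicit false

namespace Pool.Agent.CG

open Finset

theorem sq_le_sum_primes (P : ℕ) :
    (Nat.primeCounting P) ^ 2 ≤ 2 * ∑ p ∈ Nat.primesLE P, p := by
  have hle : ∀ n, Nat.primeCounting n ≤ n := by
    intro n
    rw [← Nat.primesLE_card_eq_primeCounting, Nat.primesLE_eq_filter_Icc_one]
    refine (card_filter_le _ _).trans ?_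
    rw [Nat.card_Icc]
    omega
  induction P with
  | zero => simp
  | succ P ih =>
    rw [← Nat.primesLE_card_eq_primeCounting] at ih ⊢
    by_cases hp : (P + 1).Prime
    · have e : Nat.primesLE (P + 1) = insert (P + 1) (Nat.primesLE P) := by
        ext x
        rw [mem_insert, Nat.mem_primesLE, Nat.mem_primesLE]
        constructor
        · rintro ⟨h1, h2⟩
          rcases Nat.lt_or_ge x (P + 1) with h | h
          · exact Or.inr ⟨by omega, h2⟩
          · exact Or.inl (by omega)
        · rintro (rfl | ⟨h1, h2⟩)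
          · exact ⟨le_rfl, hp⟩
          · exact ⟨by omega, h2⟩
      rw [e, card_insert_of_notMem (Nat.notMem_primesLE P), sum_insert (Nat.notMem_primesLE P)]
      have h1 := hle P
      rw [← Nat.primesLE_card_eq_primeCounting] at h1
      nlinarith
    · have e : Nat.primesLE (P + 1) = Nat.primesLE P := by
        ext x
        rw [Nat.mem_primesLE, Nat.mem_primesLE]
        constructor
        · rintro ⟨h1, h2⟩
          refine ⟨?_, h2⟩
          rcases Nat.lt_or_ge x (P + 1) with h | h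
          · omega
          · exact absurd h2 (by rwa [show x = P + 1 by omega])
        · rintro ⟨h1, h2⟩
          exact ⟨by omega, h2⟩
      rw [e]
      exact ih

theorem pi_lower {P : ℕ} (hP : 2 ≤ P) :
    (P : ℝ) ≤ 10 * Nat.primeCounting P * Real.log P := by
  have hP' : (2 : ℝ) ≤ P := by exact_mod_cast hP
  have hlog : 0 < Real.log P := Real.log_pos (by linarith)
  have h1 := Chebyshev.pi_ge P
  rw [div_le_iff₀ hlog] at h1
  have h2 : Real.log 3 ≤ 2 * Real.log 2 - 1 / 4 := by
    have h3 := Real.one_sub_inv_le_log_of_pos (show (0 : ℝ) < 4 / 3 by norm_num)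
    have h4 : Real.log (4 / 3) = 2 * Real.log 2 - Real.log 3 := by
      rw [Real.log_div (by norm_num) (by norm_num), show (4 : ℝ) = 2 ^ 2 by norm_num, Real.log_pow]
      push_cast
      ring
    rw [h4] at h3
    norm_num at h3
    linarith
  have h5 : Real.log (P + 1) ≤ (P + 1) / 3 - 1 + Real.log 3 := by
    have h6 := Real.log_le_sub_one_of_pos (show (0 : ℝ) < (P + 1) / 3 by linarith)
    rw [Real.log_div (by linarith) (by norm_num)] at h6
    linarith
  have h7 := Real.log_two_gt_d9
  have h8 := Real.log_two_lt_d9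
  have h9 : (P : ℝ) / 10 ≤ P * Real.log 2 - Real.log (P + 1) := by nlinarith
  linarith

variable {k : ℕ} {a : ℕ → ℕ}

/-- the number of periodic places with given period `q` -/
theorem count_real (ha : Ad k a) {q P Y : ℕ} (hq : 1 ≤ q) (W : Finset ℕ)
    (hW : ∀ v ∈ W, ∃ Q, Per k a q Q ((q + 1) * P) v)
    (hY : ∀ v ∈ W, a (v + (q + 1) * P + q - 1) ≤ Y) (hP : 2 ≤ P) :
    (W.card : ℝ) ≤ 30 * q * Y * (Real.log P / Real.sqrt P) := by
  set π : ℝ := (Nat.primeCounting P : ℝ) with hπ
  have hP' : (2 : ℝ) ≤ P := by exact_mod_cast hP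
  have hlog : 0 < Real.log P := Real.log_pos (by linarith)
  have hpi := pi_lower hP
  have hs0 : 0 < Real.sqrt P := Real.sqrt_pos.2 (by linarith)
  have hss : Real.sqrt P * Real.sqrt P = P := Real.mul_self_sqrt (by linarith)
  have hπ0 : 0 < π := by
    by_contra hneg
    have h1 : 10 * π * Real.log P ≤ 0 := by nlinarith
    linarith
  have hsum : π ^ 2 ≤ 2 * ((∑ p ∈ Nat.primesLE P, p : ℕ) : ℝ) := by
    rw [hπ]
    exact_mod_cast sq_le_sum_primes P
  set s : ℝ := ((∑ p ∈ Nat.primesLE P, p : ℕ) : ℝ) with hs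
  obtain ⟨u, w, h1, h2, h3⟩ := count_q ha hq W hW hY (by omega) (Z := ⌊π / Real.sqrt P⌋₊)
  set Z : ℕ := ⌊π / Real.sqrt P⌋₊ with hZ
  have hZ1 : (Z : ℝ) ≤ π / Real.sqrt P := Nat.floor_le (by positivity)
  have hZ2 : π / Real.sqrt P < Z + 1 := Nat.lt_floor_add_one _
  have h2' : (u : ℝ) * s ≤ Z * (q * P * Y) := by
    rw [hs]
    exact_mod_cast h2
  have h3' : (w : ℝ) * (Z + 1) ≤ q * Y := by exact_mod_cast h3
  have h1' : (W.card : ℝ) ≤ u + w := by exact_mod_cast h1
  have hqY : (0 : ℝ) ≤ q * Y := by positivity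
  have hu : (u : ℝ) ≤ 2 * (q * Y) * (Real.sqrt P / π) := by
    have h4 : (u : ℝ) * π ^ 2 ≤ 2 * ((π / Real.sqrt P) * (q * P * Y)) := by
      calc (u : ℝ) * π ^ 2 ≤ u * (2 * s) := mul_le_mul_of_nonneg_left hsum (Nat.cast_nonneg u)
        _ = 2 * (u * s) := by ring
        _ ≤ 2 * (Z * (q * P * Y)) := by linarith
        _ ≤ 2 * ((π / Real.sqrt P) * (q * P * Y)) := by
            have h5 : (Z : ℝ) * (q * P * Y) ≤ (π / Real.sqrt P) * (q * P * Y) :=
              mul_le_mul_of_nonneg_right hZ1 (by positivity)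
            linarith
    have h6 : 2 * ((π / Real.sqrt P) * (q * P * Y)) =
        2 * (q * Y) * (Real.sqrt P / π) * π ^ 2 := by
      field_simp
      rw [Real.sq_sqrt (by linarith)]
    rw [h6] at h4
    exact le_of_mul_le_mul_right h4 (by positivity)
  have hw : (w : ℝ) ≤ q * Y * (Real.sqrt P / π) := by
    have h4 : (w : ℝ) * (π / Real.sqrt P) ≤ q * Y :=
      (mul_le_mul_of_nonneg_left hZ2.le (Nat.cast_nonneg w)).trans h3'
    have h5 : q * Y * (Real.sqrt P / π) * (π / Real.sqrt P) = (q * Y : ℝ) := by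
      field_simp
    rw [← h5] at h4
    exact le_of_mul_le_mul_right h4 (by positivity)
  have hk : Real.sqrt P / π ≤ 10 * (Real.log P / Real.sqrt P) := by
    rw [div_le_iff₀ hπ0, mul_assoc, div_mul_eq_mul_div, ← mul_div_assoc, le_div_iff₀ hs0, hss]
    calc (P : ℝ) ≤ 10 * π * Real.log P := hpi
      _ = 10 * (Real.log P * π) := by ring
  calc (W.card : ℝ) ≤ u + w := h1'
    _ ≤ 3 * (q * Y) * (Real.sqrt P / π) := by linarith
    _ ≤ 3 * (q * Y) * (10 * (Real.log P / Real.sqrt P)) :=
        mul_le_mul_of_nonneg_left hk (by positivity)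
    _ = _ := by ring

end Pool.Agent.CG
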