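import Pool.Agent.Lib_helper49.CG.Local

/-!
# Sequences with distinct block sums: local periods of the gaps (MP_7feddf_nt), reciprocal sums
-/

set_option autoImplicit false

namespace Pool.Agent.CG

open Finset

variable {k : ℕ} {a : ℕ → ℕ}

theorem recip (ha : Ad k a) (β : ℕ → ℝ) (hβ : ∀ L, 0 ≤ β L) (hs : Summable β)
    (h : ∀ L, (((range k).filter fun i => Nat.log 2 (a i) = L).card : ℝ) ≤ 2 ^ L * β L) :
    ∑ i ∈ range k, 1 / (a i : ℝ) ≤ ∑' L, β L := by
  classical
  set T := (range k).image fun i => Nat.log 2 (a i) with hT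
  rw [← sum_fiberwise_of_maps_to (s := range k) (t := T) (g := fun i => Nat.log 2 (a i))
    (fun i hi => mem_image_of_mem _ hi)]
  refine (sum_le_sum fun L _ => ?_).trans (hs.sum_le_tsum T fun L _ => hβ L)
  have h2 : (0 : ℝ) < 2 ^ L := by positivity
  have h1 : ∀ i ∈ (range k).filter fun i => Nat.log 2 (a i) = L,
      1 / (a i : ℝ) ≤ 1 / 2 ^ L := by
    intro i hi
    rw [mem_filter, mem_range] at hi
    have h3 := Nat.pow_log_le_self 2 (x := a i) (by have := ha.pos i hi.1; omega)
    rw [hi.2] at h3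
    have h4 : (2 : ℝ) ^ L ≤ a i := by exact_mod_cast h3
    exact one_div_le_one_div_of_le h2 h4
  refine (sum_le_card_nsmul _ _ _ h1).trans ?_
  rw [nsmul_eq_mul, mul_one_div, div_le_iff₀ h2, mul_comm (β L)]
  exact h L

/-- the terms `≤ Y` are an initial segment -/
theorem initial (ha : Ad k a) (Y : ℕ) : ∃ n, n ≤ k ∧ ∀ i, i < k → (i < n ↔ a i ≤ Y) := by
  classical
  by_cases h : ∃ i, i < k ∧ Y < a i
  · refine ⟨Nat.find h, (Nat.find_spec h).1.le, fun i hi => ?_⟩
    constructor
    · intro h1
      by_contra h2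
      exact Nat.find_min h h1 ⟨hi, by omega⟩
    · intro h1
      by_contra h2
      have h3 := (Nat.find_spec h).2
      rcases Nat.lt_or_ge (Nat.find h) i with h4 | h4
      · have := ha.inc _ _ h4 hi
        omega
      · have h5 : Nat.find h = i := by omega
        rw [h5] at h3
        omega
  · push Not at h
    exact ⟨k, le_rfl, fun i hi => ⟨fun _ => h i hi, fun _ => hi⟩⟩

theorem card_log (_ : Ad k a) {L n : ℕ} (hn : ∀ i, i < k → (i < n ↔ a i ≤ 2 ^ (L + 1))) :
    ((range k).filter fun i => Nat.log 2 (a i) = L) ⊆ range n := by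
  intro i hi
  rw [mem_filter, mem_range] at hi
  rw [mem_range, hn i hi.1]
  have h1 := Nat.lt_pow_succ_log_self (b := 2) (by norm_num) (a i)
  rw [hi.2] at h1
  exact h1.le

/-- trivial bound -/
theorem card_log_le (ha : Ad k a) (L : ℕ) :
    ((range k).filter fun i => Nat.log 2 (a i) = L).card ≤ 2 ^ L := by
  have h1 : ((range k).filter fun i => Nat.log 2 (a i) = L).card ≤
      (Ico (2 ^ L) (2 ^ (L + 1))).card := by
    refine card_le_card_of_injOn a (fun i hi => ?_) ?_
    · rw [mem_coe, mem_filter, mem_range] at hi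
      rw [mem_coe, mem_Ico]
      have h2 := Nat.pow_log_le_self 2 (x := a i) (by have := ha.pos i hi.1; omega)
      have h3 := Nat.lt_pow_succ_log_self (b := 2) (by norm_num) (a i)
      rw [hi.2] at h2 h3
      exact ⟨h2, h3⟩
    · intro v hv v' hv' he
      rw [mem_coe, mem_filter, mem_range] at hv hv'
      rcases Nat.lt_trichotomy v v' with h | h | h
      · have := ha.inc v v' h hv'.1
        omega
      · exact h
      · have := ha.inc v' v h hv.1
        omega
  rw [Nat.card_Ico, pow_succ] at h1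
  omega

/-! ### summable sequences -/

theorem sum_small : Summable fun L : ℕ => if L < 2 then (1 : ℝ) else 0 := by
  refine summable_of_ne_finset_zero (s := range 2) fun L hL => ?_
  rw [mem_range] at hL
  exact if_neg hL

theorem sum_rpow {s : ℝ} (hs : 1 < s) : Summable fun L : ℕ => (L : ℝ) ^ (-s) :=
  Real.summable_nat_rpow.2 (by linarith)

theorem sum_geom (m : ℕ) : Summable fun L : ℕ => (L : ℝ) ^ m / 2 ^ L := by
  have h := summable_pow_mul_geometric_of_norm_lt_one (R := ℝ) m (r := 1 / 2) (by norm_num)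
  refine h.congr fun L => ?_
  rw [one_div, inv_pow]
  rfl

end Pool.Agent.CG
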